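import Mathlib

/-!
# Second derivative test for oscillatory integrals (generic tool)

`e x = exp (2 pi i x)`.
* `fdt`: first derivative test, monotone derivative at least `mu`.
* `sdt`: second derivative at least `lam`: the integral is at most `3 / sqrt lam`.
* `sdt_amp`: the same with an amplitude.
-/

set_option autoImplicit false

open MeasureTheory Set intervalIntegral

namespace Pool.M6T

/-- `e x = exp (2 pi i x)` -/
noncomputable def e (x : ℝ) : ℂ := Complex.exp ((2 * Real.pi * x : ℝ) * Complex.I)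

lemma norm_e (x : ℝ) : ‖e x‖ = 1 := by
  unfold e; exact Complex.norm_exp_ofReal_mul_I _

lemma e_add (x y : ℝ) : e (x + y) = e x * e y := by
  unfold e; rw [← Complex.exp_add]; congr 1; push_cast; ring

lemma e_zero : e 0 = 1 := by simp [e]

lemma e_neg (x : ℝ) : e (-x) = (starRingEnd ℂ) (e x) := by
  unfold e
  rw [← Complex.exp_conj, map_mul, Complex.conj_ofReal, Complex.conj_I]
  congr 1
  push_cast
  ring

lemma continuous_e : Continuous e := by
  unfold e; fun_prop

lemma hasDerivAt_e {f : ℝ → ℝ} {f' x : ℝ} (hf : HasDerivAt f f' x) :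
    HasDerivAt (fun y => e (f y)) ((2 * Real.pi * f' : ℝ) * Complex.I * e (f x)) x := by
  unfold e
  have h1 : HasDerivAt (fun y => ((2 * Real.pi * f y : ℝ) : ℂ) * Complex.I)
      ((2 * Real.pi * f' : ℝ) * Complex.I) x := by
    have h2 : HasDerivAt (fun y => 2 * Real.pi * f y) (2 * Real.pi * f') x := hf.const_mul _
    exact (h2.ofReal_comp).mul_const _
  have h3 := h1.cexp
  convert h3 using 1
  ring

/-- first derivative test, increasing derivative bounded below by `mu > 0` -/
theorem fdt {a b mu : ℝ} (hab : a ≤ b) (hmu : 0 < mu) {f f' f'' : ℝ → ℝ}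
    (hf : ∀ x ∈ Icc a b, HasDerivAt f (f' x) x)
    (hf' : ∀ x ∈ Icc a b, HasDerivAt f' (f'' x) x)
    (hc : ContinuousOn f'' (Icc a b))
    (h2 : ∀ x ∈ Icc a b, 0 ≤ f'' x) (h1 : ∀ x ∈ Icc a b, mu ≤ f' x) :
    ‖∫ x in a..b, e (f x)‖ ≤ 1 / (Real.pi * mu) := by
  have hpi := Real.pi_pos
  have hpos : ∀ x ∈ Icc a b, 0 < f' x := fun x hx => hmu.trans_le (h1 x hx)
  have hcf : ContinuousOn f (Icc a b) := fun x hx => (hf x hx).continuousAt.continuousWithinAt
  have hcf' : ContinuousOn f' (Icc a b) := fun x hx => (hf' x hx).continuousAt.continuousWithinAt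
  -- u = 1/(2 pi i f'), v = e(f)
  set K : ℂ := (2 * Real.pi : ℝ) * Complex.I with hK
  have hK0 : K ≠ 0 := by
    rw [hK]; simp [hpi.ne']
  have hKn : ‖K‖ = 2 * Real.pi := by
    rw [hK, norm_mul, Complex.norm_I, mul_one, Complex.norm_real, Real.norm_eq_abs,
      abs_of_pos (by positivity)]
  let u : ℝ → ℂ := fun x => ((f' x)⁻¹ : ℝ) / K
  let u' : ℝ → ℂ := fun x => ((-(f'' x) / (f' x) ^ 2 : ℝ) : ℂ) / K
  let v : ℝ → ℂ := fun x => e (f x)
  let v' : ℝ → ℂ := fun x => (2 * Real.pi * f' x : ℝ) * Complex.I * e (f x)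
  have hu : ∀ x ∈ uIcc a b, HasDerivAt u (u' x) x := by
    intro x hx
    rw [uIcc_of_le hab] at hx
    have h3 : HasDerivAt (fun y => (f' y)⁻¹) (-(f'' x) / (f' x) ^ 2) x :=
      (hf' x hx).inv (hpos x hx).ne'
    exact (h3.ofReal_comp).div_const _
  have hv : ∀ x ∈ uIcc a b, HasDerivAt v (v' x) x := by
    intro x hx
    rw [uIcc_of_le hab] at hx
    exact hasDerivAt_e (hf x hx)
  have hu'c : ContinuousOn u' (uIcc a b) := by
    rw [uIcc_of_le hab]
    apply ContinuousOn.div_const
    apply Complex.continuous_ofReal.comp_continuousOn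
    apply ContinuousOn.div hc.neg (hcf'.pow 2)
    intro x hx; exact pow_ne_zero 2 (hpos x hx).ne'
  have hvc : ContinuousOn v (uIcc a b) := by
    rw [uIcc_of_le hab]; exact continuous_e.comp_continuousOn hcf
  have hv'c : ContinuousOn v' (uIcc a b) := by
    rw [uIcc_of_le hab]
    apply ContinuousOn.mul
    · apply ContinuousOn.mul _ continuousOn_const
      exact Complex.continuous_ofReal.comp_continuousOn (continuousOn_const.mul hcf')
    · exact continuous_e.comp_continuousOn hcf
  have hparts := intervalIntegral.integral_mul_deriv_eq_deriv_mul hu hv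
    hu'c.intervalIntegrable hv'c.intervalIntegrable
  have e1 : ∫ x in a..b, e (f x) = ∫ x in a..b, u x * v' x := by
    apply intervalIntegral.integral_congr
    intro x hx
    rw [uIcc_of_le hab] at hx
    have hne : ((f' x : ℝ) : ℂ) ≠ 0 := by exact_mod_cast (hpos x hx).ne'
    simp only [u, v', hK]
    push_cast
    have hpc : ((Real.pi : ℝ) : ℂ) ≠ 0 := by exact_mod_cast hpi.ne'
    field_simp
  rw [e1, hparts]
  have hua : ‖u a * v a‖ = (1 / (2 * Real.pi)) * (f' a)⁻¹ := by
    simp only [u, v]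
    rw [norm_mul, norm_e, mul_one, norm_div, hKn, Complex.norm_real, Real.norm_eq_abs,
      abs_of_pos (inv_pos.mpr (hpos a ⟨le_rfl, hab⟩))]
    ring
  have hub : ‖u b * v b‖ = (1 / (2 * Real.pi)) * (f' b)⁻¹ := by
    simp only [u, v]
    rw [norm_mul, norm_e, mul_one, norm_div, hKn, Complex.norm_real, Real.norm_eq_abs,
      abs_of_pos (inv_pos.mpr (hpos b ⟨hab, le_rfl⟩))]
    ring
  have hint : ‖∫ x in a..b, u' x * v x‖ ≤ (1 / (2 * Real.pi)) * ((f' a)⁻¹ - (f' b)⁻¹) := by
    have h4 : ‖∫ x in a..b, u' x * v x‖ ≤ ∫ x in a..b, (1 / (2 * Real.pi)) * (f'' x / (f' x) ^ 2) := by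
      apply intervalIntegral.norm_integral_le_of_norm_le hab
      · refine Filter.Eventually.of_forall fun x hx => ?_
        have hx' : x ∈ Icc a b := ⟨hx.1.le, hx.2⟩
        simp only [u', v]
        rw [norm_mul, norm_e, mul_one, norm_div, hKn, Complex.norm_real, Real.norm_eq_abs,
          abs_div, abs_neg, abs_of_nonneg (h2 x hx'), abs_of_pos (pow_pos (hpos x hx') 2)]
        apply le_of_eq; ring
      · apply ContinuousOn.intervalIntegrable
        rw [uIcc_of_le hab]
        apply ContinuousOn.mul continuousOn_const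
        apply ContinuousOn.div hc (hcf'.pow 2)
        intro x hx; exact pow_ne_zero 2 (hpos x hx).ne'
    refine h4.trans (le_of_eq ?_)
    rw [intervalIntegral.integral_const_mul]
    congr 1
    have h5 : ∀ x ∈ uIcc a b, HasDerivAt (fun y => -(f' y)⁻¹) (f'' x / (f' x) ^ 2) x := by
      intro x hx
      rw [uIcc_of_le hab] at hx
      have h3 : HasDerivAt (fun y => (f' y)⁻¹) (-(f'' x) / (f' x) ^ 2) x :=
        (hf' x hx).inv (hpos x hx).ne'
      have h6 : HasDerivAt (fun y => -(f' y)⁻¹) (-(-(f'' x) / (f' x) ^ 2)) x := h3.neg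
      have e6 : -(-(f'' x) / (f' x) ^ 2) = f'' x / (f' x) ^ 2 := by ring
      rw [e6] at h6; exact h6
    rw [intervalIntegral.integral_eq_sub_of_hasDerivAt h5]
    · ring
    · apply ContinuousOn.intervalIntegrable
      rw [uIcc_of_le hab]
      apply ContinuousOn.div hc (hcf'.pow 2)
      intro x hx; exact pow_ne_zero 2 (hpos x hx).ne'
  have hfin : ‖u b * v b - u a * v a - ∫ x in a..b, u' x * v x‖ ≤
      (1 / (2 * Real.pi)) * (f' b)⁻¹ + (1 / (2 * Real.pi)) * (f' a)⁻¹ +
        (1 / (2 * Real.pi)) * ((f' a)⁻¹ - (f' b)⁻¹) := by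
    refine (norm_sub_le _ _).trans (add_le_add ((norm_sub_le _ _).trans ?_) hint)
    rw [hua, hub]
  refine hfin.trans ?_
  have h6 : (f' a)⁻¹ ≤ mu⁻¹ := inv_anti₀ hmu (h1 a ⟨le_rfl, hab⟩)
  have h7 : (1 / (2 * Real.pi)) * (f' b)⁻¹ + (1 / (2 * Real.pi)) * (f' a)⁻¹ +
        (1 / (2 * Real.pi)) * ((f' a)⁻¹ - (f' b)⁻¹) = (1 / Real.pi) * (f' a)⁻¹ := by ring
  rw [h7]
  have h8 : 1 / (Real.pi * mu) = (1 / Real.pi) * mu⁻¹ := by
    rw [one_div, mul_inv]; ring
  rw [h8]
  exact mul_le_mul_of_nonneg_left h6 (by positivity)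

/-- the derivative is increasing; a point where it changes sign -/
lemma exists_center {a b lam : ℝ} (hab : a ≤ b) {f' f'' : ℝ → ℝ}
    (hf' : ∀ x ∈ Icc a b, HasDerivAt f' (f'' x) x)
    (h2 : ∀ x ∈ Icc a b, lam ≤ f'' x) :
    ∃ x0 ∈ Icc a b, (∀ x ∈ Icc a b, x0 < x → lam * (x - x0) ≤ f' x) ∧
      (∀ x ∈ Icc a b, x < x0 → f' x ≤ -(lam * (x0 - x))) := by
  have hcf' : ContinuousOn f' (Icc a b) := fun x hx => (hf' x hx).continuousAt.continuousWithinAt
  have hslope : ∀ x ∈ Icc a b, ∀ y ∈ Icc a b, x ≤ y → lam * (y - x) ≤ f' y - f' x := by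
    intro x hx y hy hxy
    exact Convex.mul_sub_le_image_sub_of_le_deriv (D := Icc a b) (convex_Icc a b) hcf'
      (fun z hz => by
        rw [interior_Icc] at hz
        exact (hf' z ⟨hz.1.le, hz.2.le⟩).differentiableAt.differentiableWithinAt)
      (C := lam) (fun z hz => by
        rw [interior_Icc] at hz
        rw [(hf' z ⟨hz.1.le, hz.2.le⟩).deriv]; exact h2 z ⟨hz.1.le, hz.2.le⟩)
      x hx y hy hxy
  rcases le_or_gt 0 (f' a) with ha | ha
  · refine ⟨a, ⟨le_rfl, hab⟩, ?_, ?_⟩
    · intro x hx hax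
      have := hslope a ⟨le_rfl, hab⟩ x hx hax.le
      linarith
    · intro x hx hax
      exact absurd hx.1 (not_le.mpr hax)
  · rcases le_or_gt (f' b) 0 with hb | hb
    · refine ⟨b, ⟨hab, le_rfl⟩, ?_, ?_⟩
      · intro x hx hbx
        exact absurd hx.2 (not_le.mpr hbx)
      · intro x hx hbx
        have := hslope x hx b ⟨hab, le_rfl⟩ hbx.le
        linarith
    · obtain ⟨x0, hx0, hz⟩ : ∃ x0 ∈ Icc a b, f' x0 = 0 := by
        have := intermediate_value_Icc hab hcf'
        exact this ⟨ha.le, hb.le⟩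
      refine ⟨x0, hx0, ?_, ?_⟩
      · intro x hx hxx
        have := hslope x0 hx0 x hx hxx.le
        linarith
      · intro x hx hxx
        have := hslope x hx x0 hx0 hxx.le
        linarith

/-- first derivative test, increasing derivative bounded above by `-mu < 0` -/
theorem fdt_neg {a b mu : ℝ} (hab : a ≤ b) (hmu : 0 < mu) {f f' f'' : ℝ → ℝ}
    (hf : ∀ x ∈ Icc a b, HasDerivAt f (f' x) x)
    (hf' : ∀ x ∈ Icc a b, HasDerivAt f' (f'' x) x)
    (hc : ContinuousOn f'' (Icc a b))
    (h2 : ∀ x ∈ Icc a b, 0 ≤ f'' x) (h1 : ∀ x ∈ Icc a b, f' x ≤ -mu) :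
    ‖∫ x in a..b, e (f x)‖ ≤ 1 / (Real.pi * mu) := by
  -- reflect
  have h := fdt (a := -b) (b := -a) (mu := mu) (by linarith) hmu
    (f := fun x => f (-x)) (f' := fun x => -(f' (-x))) (f'' := fun x => f'' (-x))
    (by
      intro x hx
      have hx' : -x ∈ Icc a b := ⟨by linarith [hx.2], by linarith [hx.1]⟩
      have h3 : HasDerivAt (fun x => f (-x)) (f' (-x) * -1) x :=
        (hf (-x) hx').comp x (hasDerivAt_neg x)
      have e3 : f' (-x) * -1 = -(f' (-x)) := by ring
      rw [e3] at h3; exact h3)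
    (by
      intro x hx
      have hx' : -x ∈ Icc a b := ⟨by linarith [hx.2], by linarith [hx.1]⟩
      have h3 : HasDerivAt (fun x => -(f' (-x))) (-(f'' (-x) * -1)) x :=
        ((hf' (-x) hx').comp x (hasDerivAt_neg x)).neg
      have e3 : -(f'' (-x) * -1) = f'' (-x) := by ring
      rw [e3] at h3; exact h3)
    (by
      apply hc.comp continuous_neg.continuousOn
      intro x hx
      exact ⟨by linarith [hx.2], by linarith [hx.1]⟩)
    (by
      intro x hx
      exact h2 _ ⟨by linarith [hx.2], by linarith [hx.1]⟩)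
    (by
      intro x hx
      have := h1 (-x) ⟨by linarith [hx.2], by linarith [hx.1]⟩
      linarith)
  have e1 : ∫ x in (-b)..(-a), e (f (-x)) = ∫ x in a..b, e (f x) := by
    rw [intervalIntegral.integral_comp_neg (fun x => e (f x))]
    simp
  rw [e1] at h
  exact h

/-- second derivative test -/
theorem sdt {a b lam : ℝ} (hab : a ≤ b) (hlam : 0 < lam) {f f' f'' : ℝ → ℝ}
    (hf : ∀ x ∈ Icc a b, HasDerivAt f (f' x) x)
    (hf' : ∀ x ∈ Icc a b, HasDerivAt f' (f'' x) x)
    (hc : ContinuousOn f'' (Icc a b))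
    (h2 : ∀ x ∈ Icc a b, lam ≤ f'' x) :
    ‖∫ x in a..b, e (f x)‖ ≤ 3 / Real.sqrt lam := by
  have hpi := Real.pi_gt_three
  have hcf : ContinuousOn f (Icc a b) := fun x hx => (hf x hx).continuousAt.continuousWithinAt
  obtain ⟨x0, hx0, hR, hL⟩ := exists_center hab hf' h2
  set s := Real.sqrt lam with hs
  have hs0 : 0 < s := Real.sqrt_pos.mpr hlam
  have hss : s * s = lam := Real.mul_self_sqrt hlam.le
  set d := 1 / s with hd
  have hd0 : 0 < d := by positivity
  set p := max a (x0 - d) with hp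
  set q := min b (x0 + d) with hq
  have hap : a ≤ p := le_max_left _ _
  have hpx : p ≤ x0 := max_le hx0.1 (by linarith)
  have hxq : x0 ≤ q := le_min hx0.2 (by linarith)
  have hqb : q ≤ b := min_le_left _ _
  have hI : ∀ u v : ℝ, a ≤ u → u ≤ v → v ≤ b →
      IntervalIntegrable (fun x => e (f x)) volume u v := by
    intro u v hu huv hv
    apply ContinuousOn.intervalIntegrable
    rw [uIcc_of_le huv]
    exact continuous_e.comp_continuousOn (hcf.mono (Icc_subset_Icc hu hv))
  have hsplit : ∫ x in a..b, e (f x) =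
      (∫ x in a..p, e (f x)) + (∫ x in p..q, e (f x)) + ∫ x in q..b, e (f x) := by
    rw [intervalIntegral.integral_add_adjacent_intervals (hI a p le_rfl hap (by linarith))
      (hI p q hap (by linarith) hqb),
      intervalIntegral.integral_add_adjacent_intervals (hI a q le_rfl (by linarith) hqb)
      (hI q b (by linarith) hqb le_rfl)]
  have hmid : ‖∫ x in p..q, e (f x)‖ ≤ 2 * d := by
    have h3 := intervalIntegral.norm_integral_le_of_norm_le_const (a := p) (b := q)
      (f := fun x => e (f x)) (C := 1) (fun x _ => (norm_e _).le)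
    refine h3.trans ?_
    rw [one_mul, abs_of_nonneg (by linarith)]
    have h4 : q ≤ x0 + d := min_le_right _ _
    have h5 : x0 - d ≤ p := le_max_right _ _
    linarith
  have hld : lam * d = s := by
    rw [hd, ← hss]; field_simp
  have h13 : 1 / (Real.pi * s) ≤ (1 / 3) * d := by
    rw [hd, one_div_mul_one_div_rev, mul_comm s 3]
    apply one_div_le_one_div_of_le (by positivity)
    nlinarith
  have hleft : ‖∫ x in a..p, e (f x)‖ ≤ (1 / 3) * d := by
    rcases le_or_gt (x0 - d) a with h3 | h3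
    · have : p = a := max_eq_left h3
      rw [this]; simp; positivity
    · have hpe : p = x0 - d := max_eq_right h3.le
      refine le_trans ?_ h13
      apply fdt_neg hap hs0
      · intro x hx; exact hf x ⟨hx.1, by linarith [hx.2]⟩
      · intro x hx; exact hf' x ⟨hx.1, by linarith [hx.2]⟩
      · exact hc.mono (Icc_subset_Icc le_rfl (by linarith))
      · intro x hx; exact hlam.le.trans (h2 x ⟨hx.1, by linarith [hx.2]⟩)
      · intro x hx
        have hx1 : x ≤ x0 - d := by rw [← hpe]; exact hx.2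
        have h4 := hL x ⟨hx.1, by linarith [hx.2]⟩ (by linarith)
        have h5 : lam * d ≤ lam * (x0 - x) := mul_le_mul_of_nonneg_left (by linarith) hlam.le
        linarith
  have hright : ‖∫ x in q..b, e (f x)‖ ≤ (1 / 3) * d := by
    rcases le_or_gt b (x0 + d) with h3 | h3
    · have : q = b := min_eq_left h3
      rw [this]; simp; positivity
    · have hqe : q = x0 + d := min_eq_right h3.le
      refine le_trans ?_ h13
      apply fdt hqb hs0
      · intro x hx; exact hf x ⟨by linarith [hx.1], hx.2⟩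
      · intro x hx; exact hf' x ⟨by linarith [hx.1], hx.2⟩
      · exact hc.mono (Icc_subset_Icc (by linarith) le_rfl)
      · intro x hx; exact hlam.le.trans (h2 x ⟨by linarith [hx.1], hx.2⟩)
      · intro x hx
        have hx1 : x0 + d ≤ x := by rw [← hqe]; exact hx.1
        have h4 := hR x ⟨by linarith [hx.1], hx.2⟩ (by linarith)
        have h5 : lam * d ≤ lam * (x - x0) := mul_le_mul_of_nonneg_left (by linarith) hlam.le
        linarith
  rw [hsplit]
  refine (norm_add₃_le).trans ?_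
  have : (3 : ℝ) / s = 3 * d := by rw [hd]; ring
  rw [this]
  linarith

/-- second derivative test, negative second derivative -/
theorem sdt_neg {a b lam : ℝ} (hab : a ≤ b) (hlam : 0 < lam) {f f' f'' : ℝ → ℝ}
    (hf : ∀ x ∈ Icc a b, HasDerivAt f (f' x) x)
    (hf' : ∀ x ∈ Icc a b, HasDerivAt f' (f'' x) x)
    (hc : ContinuousOn f'' (Icc a b))
    (h2 : ∀ x ∈ Icc a b, f'' x ≤ -lam) :
    ‖∫ x in a..b, e (f x)‖ ≤ 3 / Real.sqrt lam := by
  have h := sdt hab hlam (f := fun x => -f x) (f' := fun x => -f' x) (f'' := fun x => -f'' x)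
    (fun x hx => (hf x hx).neg) (fun x hx => (hf' x hx).neg) hc.neg
    (fun x hx => by have := h2 x hx; linarith)
  have e1 : ∫ x in a..b, e (-f x) = (starRingEnd ℂ) (∫ x in a..b, e (f x)) := by
    rw [← intervalIntegral_conj]
    exact intervalIntegral.integral_congr fun x _ => e_neg _
  rw [e1, Complex.norm_conj] at h
  exact h

/-- amplitude: if all partial integrals `∫_a^c F` are at most `M`, then
`|∫ g F| ≤ M (|g b| + ∫ |g'|)` -/
theorem amp {a b M : ℝ} (hab : a ≤ b) {F : ℝ → ℂ} (hF : ContinuousOn F (Icc a b))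
    {g g' : ℝ → ℂ} (hg : ∀ x ∈ Icc a b, HasDerivAt g (g' x) x) (hg' : ContinuousOn g' (Icc a b))
    (hM : ∀ c ∈ Icc a b, ‖∫ x in a..c, F x‖ ≤ M) :
    ‖∫ x in a..b, g x * F x‖ ≤ M * (‖g b‖ + ∫ x in a..b, ‖g' x‖) := by
  have hM0 : 0 ≤ M := (norm_nonneg _).trans (hM a ⟨le_rfl, hab⟩)
  have hcg : ContinuousOn g (Icc a b) := fun x hx => (hg x hx).continuousAt.continuousWithinAt
  have hFi : IntervalIntegrable F volume a b :=
    ContinuousOn.intervalIntegrable (by rw [uIcc_of_le hab]; exact hF)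
  -- extend F continuously outside
  let G : ℝ → ℂ := fun x => F (projIcc a b hab x)
  have hG : Continuous G := (hF.domRestrict).comp continuous_projIcc
  have hGF : ∀ x ∈ Icc a b, G x = F x := by
    intro x hx
    simp only [G]
    rw [projIcc_of_mem hab hx]
  let P : ℝ → ℂ := fun c => ∫ x in a..c, G x
  have hP : ∀ x, HasDerivAt P (G x) x := fun x =>
    intervalIntegral.integral_hasDerivAt_right (hG.intervalIntegrable _ _)
      (hG.stronglyMeasurableAtFilter _ _) hG.continuousAt
  have hPM : ∀ c ∈ Icc a b, ‖P c‖ ≤ M := by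
    intro c hc
    have : P c = ∫ x in a..c, F x := by
      apply intervalIntegral.integral_congr
      intro x hx
      rw [uIcc_of_le hc.1] at hx
      exact hGF x ⟨hx.1, hx.2.trans hc.2⟩
    rw [this]; exact hM c hc
  have hparts := intervalIntegral.integral_mul_deriv_eq_deriv_mul (a := a) (b := b)
    (u := g) (v := P) (u' := g') (v' := G)
    (fun x hx => by rw [uIcc_of_le hab] at hx; exact hg x hx) (fun x _ => hP x)
    (ContinuousOn.intervalIntegrable (by rw [uIcc_of_le hab]; exact hg'))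
    (hG.intervalIntegrable _ _)
  have e1 : ∫ x in a..b, g x * F x = ∫ x in a..b, g x * G x := by
    apply intervalIntegral.integral_congr
    intro x hx
    rw [uIcc_of_le hab] at hx
    simp only [hGF x hx]
  have hPa : P a = 0 := by simp [P]
  rw [e1, hparts, hPa, mul_zero, sub_zero]
  refine (norm_sub_le _ _).trans ?_
  have h1 : ‖g b * P b‖ ≤ M * ‖g b‖ := by
    rw [norm_mul, mul_comm]
    exact mul_le_mul_of_nonneg_right (hPM b ⟨hab, le_rfl⟩) (norm_nonneg _)
  have h2 : ‖∫ x in a..b, g' x * P x‖ ≤ M * ∫ x in a..b, ‖g' x‖ := by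
    rw [← intervalIntegral.integral_const_mul]
    apply intervalIntegral.norm_integral_le_of_norm_le hab
    · refine Filter.Eventually.of_forall fun x hx => ?_
      rw [norm_mul, mul_comm]
      exact mul_le_mul_of_nonneg_right (hPM x ⟨hx.1.le, hx.2⟩) (norm_nonneg _)
    · apply ContinuousOn.intervalIntegrable
      rw [uIcc_of_le hab]
      exact continuousOn_const.mul hg'.norm
  linarith

/-- second derivative test with amplitude -/
theorem sdt_amp {a b lam : ℝ} (hab : a ≤ b) (hlam : 0 < lam) {f f' f'' : ℝ → ℝ}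
    (hf : ∀ x ∈ Icc a b, HasDerivAt f (f' x) x)
    (hf' : ∀ x ∈ Icc a b, HasDerivAt f' (f'' x) x)
    (hc : ContinuousOn f'' (Icc a b))
    (h2 : (∀ x ∈ Icc a b, lam ≤ f'' x) ∨ (∀ x ∈ Icc a b, f'' x ≤ -lam))
    {g g' : ℝ → ℂ} (hg : ∀ x ∈ Icc a b, HasDerivAt g (g' x) x)
    (hg' : ContinuousOn g' (Icc a b)) :
    ‖∫ x in a..b, g x * e (f x)‖ ≤ 3 / Real.sqrt lam * (‖g b‖ + ∫ x in a..b, ‖g' x‖) := by
  have hcf : ContinuousOn f (Icc a b) := fun x hx => (hf x hx).continuousAt.continuousWithinAt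
  apply amp hab (continuous_e.comp_continuousOn hcf) hg hg'
  intro c hcI
  have hsub : Icc a c ⊆ Icc a b := Icc_subset_Icc le_rfl hcI.2
  rcases h2 with h2 | h2
  · exact sdt hcI.1 hlam (fun x hx => hf x (hsub hx)) (fun x hx => hf' x (hsub hx))
      (hc.mono hsub) (fun x hx => h2 x (hsub hx))
  · exact sdt_neg hcI.1 hlam (fun x hx => hf x (hsub hx)) (fun x hx => hf' x (hsub hx))
      (hc.mono hsub) (fun x hx => h2 x (hsub hx))

end Pool.M6T
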