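import Mathlib
import Pool.Agent.Work.MP_0b7501_nt.BlockE1

/-!
# Second derivative test for exponential sums (generic tool)

`sds`: if the second differences of `g` lie in `[lam, a lam]`, `0 < lam <= 1`, then
`|sum_{n < M} e (g n)| <= 20 a (M sqrt lam + 1 / sqrt lam)`.
`sds_deriv`: version for a real function with second derivative in `[lam, a lam]`.
-/

set_option autoImplicit false

open Finset Pool.Agent.Work.MP_0b7501_nt

namespace Pool.M6T

/-- first difference -/
def D1 (g : ℕ → ℝ) (n : ℕ) : ℝ := g (n + 1) - g n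

/-- second difference -/
def D2 (g : ℕ → ℝ) (n : ℕ) : ℝ := (g (n + 2) - g (n + 1)) - (g (n + 1) - g n)

lemma D1_succ (g : ℕ → ℝ) (n : ℕ) : D1 g (n + 1) = D1 g n + D2 g n := by
  unfold D1 D2; ring

lemma D1_grow {g : ℕ → ℝ} {M : ℕ} {lam : ℝ} (h : ∀ n, n + 2 < M → lam ≤ D2 g n) :
    ∀ s t : ℕ, s ≤ t → t + 1 < M → D1 g s + lam * (t - s : ℝ) ≤ D1 g t := by
  intro s t hst
  induction t, hst using Nat.le_induction with
  | base => intro _; simp
  | succ t hst ih =>
    intro ht
    have h1 := ih (by omega)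
    have h2 := h t (by omega)
    rw [D1_succ]; push_cast; nlinarith

lemma D1_upper {g : ℕ → ℝ} {M : ℕ} {L : ℝ} (h : ∀ n, n + 2 < M → D2 g n ≤ L) :
    ∀ s t : ℕ, s ≤ t → t + 1 < M → D1 g t ≤ D1 g s + L * (t - s : ℝ) := by
  intro s t hst
  induction t, hst using Nat.le_induction with
  | base => intro _; simp
  | succ t hst ih =>
    intro ht
    have h1 := ih (by omega)
    have h2 := h t (by omega)
    rw [D1_succ]; push_cast; nlinarith

/-- threshold splitting -/
lemma threshold (δ : ℕ → ℝ) (N : ℕ) (hm : ∀ s t, s ≤ t → t < N → δ s ≤ δ t) (c : ℝ) :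
    ∃ k ≤ N, (∀ n < k, δ n < c) ∧ (∀ n, k ≤ n → n < N → c ≤ δ n) := by
  induction N with
  | zero => exact ⟨0, le_rfl, by intro n hn; omega, by intro n _ hn; omega⟩
  | succ N ih =>
    obtain ⟨k, hk, h1, h2⟩ := ih (fun s t hst ht => hm s t hst (by omega))
    rcases Nat.lt_or_ge k N with hkN | hkN
    · refine ⟨k, by omega, h1, ?_⟩
      intro n hn hnN
      rcases Nat.lt_or_ge n N with h3 | h3
      · exact h2 n hn h3
      · have : n = N := by omega
        subst this
        exact (h2 k le_rfl hkN).trans (hm k n hkN.le (by omega))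
    · have hkN' : k = N := by omega
      subst hkN'
      rcases lt_or_ge (δ k) c with h3 | h3
      · refine ⟨k + 1, le_rfl, ?_, by intro n _ _; omega⟩
        intro n hn
        rcases Nat.lt_or_ge n k with h4 | h4
        · exact h1 n h4
        · have : n = k := by omega
          rw [this]; exact h3
      · refine ⟨k, by omega, h1, ?_⟩
        intro n hn hnN
        have : n = k := by omega
        rw [this]; exact h3

lemma norm_sum_le_card (g : ℕ → ℝ) (s : Finset ℕ) : ‖∑ n ∈ s, ex (g n)‖ ≤ s.card := by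
  refine (norm_sum_le _ _).trans ?_
  simp [norm_ex]

lemma ex_add_int (x : ℝ) (m : ℤ) : ex (x + m) = ex x := by
  rw [ex_add, ex_int, mul_one]

/-- Kusmin-Landau on a block `[s, t)` with first differences in `m + [u, 1/2]` -/
lemma kl_up {g : ℕ → ℝ} {s t : ℕ} {u : ℝ} (hu : 0 < u) (m : ℤ)
    (h1 : ∀ n, s ≤ n → n < t → (m : ℝ) + u ≤ D1 g n ∧ D1 g n ≤ m + 1 / 2)
    (h2 : ∀ n, s ≤ n → n + 1 < t → 0 ≤ D2 g n) :
    ‖∑ n ∈ Ico s t, ex (g n)‖ ≤ 1 / u := by
  rcases Nat.lt_or_ge s t with hst | hst
  swap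
  · rw [Ico_eq_empty (by omega)]; simp; positivity
  have h := kusmin_landau (fun n => g (s + n) - m * n) (t - s) u hu
    (by
      intro n hn
      have := (h1 (s + n) (by omega) (by omega)).1
      unfold D1 at this
      have e : s + (n + 1) = s + n + 1 := by ring
      simp only [e]; push_cast; linarith)
    (by
      intro n hn
      have := (h1 (s + n) (by omega) (by omega)).2
      unfold D1 at this
      have e : s + (n + 1) = s + n + 1 := by ring
      simp only [e]; push_cast; linarith)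
    (by
      left
      intro n hn
      have := h2 (s + n) (by omega) (by omega)
      unfold D2 at this
      have e : s + (n + 1) = s + n + 1 := by ring
      have e2 : s + (n + 2) = s + n + 2 := by ring
      simp only [e, e2]; push_cast; linarith)
  have e1 : ∑ n ∈ Ico s t, ex (g n) = ∑ n ∈ range (t - s), ex (g (s + n) - m * n) := by
    rw [sum_Ico_eq_sum_range]
    refine sum_congr rfl fun n _ => ?_
    have : g (s + n) = (g (s + n) - m * n) + ((m * n : ℤ) : ℝ) := by push_cast; ring
    conv_lhs => rw [this]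
    exact ex_add_int _ _
  rw [e1]; exact h

/-- Kusmin-Landau on a block `[s, t)` with first differences in `m + [-1/2, -u]` -/
lemma kl_down {g : ℕ → ℝ} {s t : ℕ} {u : ℝ} (hu : 0 < u) (m : ℤ)
    (h1 : ∀ n, s ≤ n → n < t → (m : ℝ) - 1 / 2 ≤ D1 g n ∧ D1 g n ≤ m - u)
    (h2 : ∀ n, s ≤ n → n + 1 < t → 0 ≤ D2 g n) :
    ‖∑ n ∈ Ico s t, ex (g n)‖ ≤ 1 / u := by
  rcases Nat.lt_or_ge s t with hst | hst
  swap
  · rw [Ico_eq_empty (by omega)]; simp; positivity
  have h := kusmin_landau (fun n => m * n - g (s + n)) (t - s) u hu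
    (by
      intro n hn
      have := (h1 (s + n) (by omega) (by omega)).2
      unfold D1 at this
      have e : s + (n + 1) = s + n + 1 := by ring
      simp only [e]; push_cast; linarith)
    (by
      intro n hn
      have := (h1 (s + n) (by omega) (by omega)).1
      unfold D1 at this
      have e : s + (n + 1) = s + n + 1 := by ring
      simp only [e]; push_cast; linarith)
    (by
      right
      intro n hn
      have := h2 (s + n) (by omega) (by omega)
      unfold D2 at this
      have e : s + (n + 1) = s + n + 1 := by ring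
      have e2 : s + (n + 2) = s + n + 2 := by ring
      simp only [e, e2]; push_cast; linarith)
  have e1 : ∑ n ∈ Ico s t, ex (g n) =
      (starRingEnd ℂ) (∑ n ∈ range (t - s), ex (m * n - g (s + n))) := by
    rw [map_sum, sum_Ico_eq_sum_range]
    refine sum_congr rfl fun n _ => ?_
    rw [← ex_neg]
    have : -((m : ℝ) * n - g (s + n)) = g (s + n) + ((-(m * n) : ℤ) : ℝ) := by push_cast; ring
    rw [this, ex_add_int]
  rw [e1, Complex.norm_conj]; exact h

/-- a block whose first differences stay in an interval of length `w` is short -/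
lemma count_block {g : ℕ → ℝ} {M : ℕ} {lam : ℝ} (hlam : 0 < lam)
    (h : ∀ n, n + 2 < M → lam ≤ D2 g n) {s t : ℕ} (ht : t + 1 ≤ M) {c w : ℝ} (hw : 0 ≤ w)
    (h1 : ∀ n, s ≤ n → n < t → c ≤ D1 g n ∧ D1 g n ≤ c + w) :
    ((t - s : ℕ) : ℝ) ≤ w / lam + 1 := by
  rcases Nat.lt_or_ge s t with hst | hst
  swap
  · have : t - s = 0 := by omega
    rw [this]; push_cast; positivity
  have h2 := D1_grow h s (t - 1) (by omega) (by omega)
  have h3 := h1 s le_rfl hst
  have h4 := h1 (t - 1) (by omega) (by omega)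
  have e : ((t - 1 : ℕ) : ℝ) - s = ((t - s : ℕ) : ℝ) - 1 := by
    have h5 : (t - 1) + 1 = t := by omega
    have h6 : (t - s) + s = t := by omega
    have h7 : ((t - 1 : ℕ) : ℝ) + 1 = t := by exact_mod_cast h5
    have h8 : ((t - s : ℕ) : ℝ) + s = t := by exact_mod_cast h6
    linarith
  rw [e] at h2
  have h9 : lam * (((t - s : ℕ) : ℝ) - 1) ≤ w := by linarith
  have h10 : ((t - s : ℕ) : ℝ) - 1 ≤ w / lam := by
    rw [le_div_iff₀ hlam]; linarith
  linarith

/-- the block between two consecutive integers -/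
lemma unit_block {g : ℕ → ℝ} {M : ℕ} {lam : ℝ} (hlam : 0 < lam) (hlam1 : lam ≤ 1)
    (h : ∀ n, n + 2 < M → lam ≤ D2 g n) {s t : ℕ} (ht : t + 1 ≤ M) (m : ℤ)
    (h1 : ∀ n, s ≤ n → n < t → (m : ℝ) ≤ D1 g n ∧ D1 g n ≤ m + 1) :
    ‖∑ n ∈ Ico s t, ex (g n)‖ ≤ 8 / Real.sqrt lam := by
  set u := Real.sqrt lam with hu
  have hu0 : 0 < u := Real.sqrt_pos.mpr hlam
  have huu : u * u = lam := Real.mul_self_sqrt hlam.le
  have hu1 : u ≤ 1 := by
    by_contra hcon
    push Not at hcon
    nlinarith
  have hui : 1 ≤ 1 / u := by rw [le_div_iff₀ hu0]; linarith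
  rcases Nat.lt_or_ge s t with hst | hst
  swap
  · rw [Ico_eq_empty (by omega)]; simp; positivity
  rcases lt_or_ge (1 / 2) u with hu2 | hu2
  · -- trivial bound
    refine (norm_sum_le_card g _).trans ?_
    rw [Nat.card_Ico]
    refine (count_block hlam h ht zero_le_one h1).trans ?_
    have h3 : 1 / lam ≤ 2 * (1 / u) := by
      have e0 : 1 / lam = (1 / u) * (1 / u) := by rw [← huu]; field_simp
      have : 1 / u ≤ 2 := by rw [div_le_iff₀ hu0]; linarith
      rw [e0]
      exact mul_le_mul_of_nonneg_right this (by positivity)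
    have : (8 : ℝ) / u = 8 * (1 / u) := by ring
    rw [this]; linarith
  -- monotone first differences on the block
  have hmono : ∀ a b, a ≤ b → b < t - s → D1 g (s + a) ≤ D1 g (s + b) := by
    intro a b hab hb
    have := D1_grow h (s + a) (s + b) (by omega) (by omega)
    have h5 : (0 : ℝ) ≤ lam * (((s + b : ℕ) : ℝ) - ((s + a : ℕ) : ℝ)) := by
      apply mul_nonneg hlam.le
      have : ((s + a : ℕ) : ℝ) ≤ ((s + b : ℕ) : ℝ) := by exact_mod_cast (by omega : s + a ≤ s + b)
      linarith
    linarith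
  obtain ⟨k1, hk1, ha1, hb1⟩ := threshold (fun n => D1 g (s + n)) (t - s) hmono (m + u)
  obtain ⟨k2, hk2, ha2, hb2⟩ := threshold (fun n => D1 g (s + n)) (t - s) hmono (m + 1 / 2)
  obtain ⟨k3, hk3, ha3, hb3⟩ := threshold (fun n => D1 g (s + n)) (t - s) hmono (m + 1 - u)
  have hk12 : k1 ≤ k2 := by
    by_contra hcon
    have h3 := ha1 k2 (by omega)
    have h4 := hb2 k2 le_rfl (by omega)
    linarith
  have hk23 : k2 ≤ k3 := by
    by_contra hcon
    have h3 := ha2 k3 (by omega)
    have h4 := hb3 k3 le_rfl (by omega)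
    linarith
  have hsplit : ∑ n ∈ Ico s t, ex (g n) = ∑ n ∈ Ico s (s + k1), ex (g n) +
      ∑ n ∈ Ico (s + k1) (s + k2), ex (g n) + ∑ n ∈ Ico (s + k2) (s + k3), ex (g n) +
      ∑ n ∈ Ico (s + k3) t, ex (g n) := by
    rw [sum_Ico_consecutive _ (by omega) (by omega), sum_Ico_consecutive _ (by omega) (by omega),
      sum_Ico_consecutive _ (by omega) (by omega)]
  have hp1 : ‖∑ n ∈ Ico s (s + k1), ex (g n)‖ ≤ 1 / u + 1 := by
    refine (norm_sum_le_card g _).trans ?_
    rw [Nat.card_Ico]
    have := count_block hlam h (s := s) (t := s + k1) (by omega) (c := m) (w := u) hu0.le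
      (by
        intro n hn hn2
        refine ⟨(h1 n hn (by omega)).1, ?_⟩
        have := ha1 (n - s) (by omega)
        rw [show s + (n - s) = n by omega] at this
        exact this.le)
    refine this.trans ?_
    have : u / lam = 1 / u := by rw [← huu]; field_simp
    rw [this]
  have hp2 : ‖∑ n ∈ Ico (s + k1) (s + k2), ex (g n)‖ ≤ 1 / u := by
    apply kl_up hu0 m
    · intro n hn hn2
      have h3 := hb1 (n - s) (by omega) (by omega)
      have h4 := ha2 (n - s) (by omega)
      rw [show s + (n - s) = n by omega] at h3 h4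
      exact ⟨h3, h4.le⟩
    · intro n hn hn2
      exact hlam.le.trans (h n (by omega))
  have hp3 : ‖∑ n ∈ Ico (s + k2) (s + k3), ex (g n)‖ ≤ 1 / u := by
    apply kl_down hu0 (m + 1)
    · intro n hn hn2
      have h3 := hb2 (n - s) (by omega) (by omega)
      have h4 := ha3 (n - s) (by omega)
      rw [show s + (n - s) = n by omega] at h3 h4
      push_cast
      exact ⟨by linarith, h4.le⟩
    · intro n hn hn2
      exact hlam.le.trans (h n (by omega))
  have hp4 : ‖∑ n ∈ Ico (s + k3) t, ex (g n)‖ ≤ 1 / u + 1 := by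
    refine (norm_sum_le_card g _).trans ?_
    rw [Nat.card_Ico]
    have := count_block hlam h (s := s + k3) (t := t) (by omega) (c := m + 1 - u) (w := u) hu0.le
      (by
        intro n hn hn2
        have h3 := hb3 (n - s) (by omega) (by omega)
        rw [show s + (n - s) = n by omega] at h3
        exact ⟨h3, by have := (h1 n (by omega) hn2).2; linarith⟩)
    refine this.trans ?_
    have : u / lam = 1 / u := by rw [← huu]; field_simp
    rw [this]
  rw [hsplit]
  refine (norm_add_le _ _).trans ?_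
  have h3 := norm_add₃_le (a := ∑ n ∈ Ico s (s + k1), ex (g n))
    (b := ∑ n ∈ Ico (s + k1) (s + k2), ex (g n)) (c := ∑ n ∈ Ico (s + k2) (s + k3), ex (g n))
  have : (8 : ℝ) / u = 8 * (1 / u) := by ring
  rw [this]; linarith

/-- induction over the integers crossed by the first difference -/
lemma blocks {g : ℕ → ℝ} {M : ℕ} {lam : ℝ} (hlam : 0 < lam) (hlam1 : lam ≤ 1)
    (h : ∀ n, n + 2 < M → lam ≤ D2 g n) (K : ℕ) :
    ∀ s t : ℕ, t + 1 ≤ M → ∀ m : ℤ, (∀ n, s ≤ n → n < t → (m : ℝ) ≤ D1 g n) →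
      (∀ n, s ≤ n → n < t → D1 g n < m + (K + 1)) →
      ‖∑ n ∈ Ico s t, ex (g n)‖ ≤ (K + 1) * (8 / Real.sqrt lam) := by
  induction K with
  | zero =>
    intro s t ht m h1 h2
    have := unit_block hlam hlam1 h ht m
      (fun n hn hn2 => ⟨h1 n hn hn2, by have := h2 n hn hn2; push_cast at this; linarith⟩)
    simpa using this
  | succ K ih =>
    intro s t ht m h1 h2
    have hmono : ∀ a b, a ≤ b → b < t - s → D1 g (s + a) ≤ D1 g (s + b) := by
      intro a b hab hb
      have := D1_grow h (s + a) (s + b) (by omega) (by omega)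
      have h5 : (0 : ℝ) ≤ lam * (((s + b : ℕ) : ℝ) - ((s + a : ℕ) : ℝ)) := by
        apply mul_nonneg hlam.le
        have : ((s + a : ℕ) : ℝ) ≤ ((s + b : ℕ) : ℝ) := by
          exact_mod_cast (by omega : s + a ≤ s + b)
        linarith
      linarith
    rcases Nat.lt_or_ge s t with hst | hst
    swap
    · rw [Ico_eq_empty (by omega)]; simp; positivity
    obtain ⟨k, hk, ha, hb⟩ := threshold (fun n => D1 g (s + n)) (t - s) hmono (m + 1)
    have hp1 := unit_block hlam hlam1 h (s := s) (t := s + k) (by omega) m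
      (by
        intro n hn hn2
        refine ⟨h1 n hn (by omega), ?_⟩
        have := ha (n - s) (by omega)
        rw [show s + (n - s) = n by omega] at this
        exact this.le)
    have hp2 := ih (s + k) t ht (m + 1)
      (by
        intro n hn hn2
        have := hb (n - s) (by omega) (by omega)
        rw [show s + (n - s) = n by omega] at this
        push_cast; exact this)
      (by
        intro n hn hn2
        have := h2 n (by omega) hn2
        push_cast at this ⊢; linarith)
    rw [← sum_Ico_consecutive _ (by omega : s ≤ s + k) (by omega : s + k ≤ t)]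
    refine (norm_add_le _ _).trans ?_
    push_cast
    linarith

/-- **second derivative test for sums**, second differences in `[lam, a lam]` -/
theorem sds (g : ℕ → ℝ) (M : ℕ) (lam a : ℝ) (hlam : 0 < lam) (hlam1 : lam ≤ 1) (ha : 1 ≤ a)
    (h : ∀ n, n + 2 < M → lam ≤ D2 g n ∧ D2 g n ≤ a * lam) :
    ‖∑ n ∈ range M, ex (g n)‖ ≤ 17 * a * (M * Real.sqrt lam + 1 / Real.sqrt lam) := by
  set u := Real.sqrt lam with hu
  have hu0 : 0 < u := Real.sqrt_pos.mpr hlam
  have huu : u * u = lam := Real.mul_self_sqrt hlam.le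
  have hu1 : u ≤ 1 := by
    by_contra hcon
    push Not at hcon
    nlinarith
  have hui : 1 ≤ 1 / u := by rw [le_div_iff₀ hu0]; linarith
  rcases Nat.eq_zero_or_pos M with hM | hM
  · subst hM; simp; positivity
  obtain ⟨N, rfl⟩ : ∃ N, M = N + 1 := ⟨M - 1, by omega⟩
  rw [range_eq_Ico, ← sum_Ico_consecutive _ (Nat.zero_le N) (Nat.le_succ N)]
  have hlast : ‖∑ n ∈ Ico N (N + 1), ex (g n)‖ ≤ 1 := by
    simp [norm_ex]
  set m : ℤ := ⌊D1 g 0⌋ with hm
  set K : ℕ := ⌊a * lam * N⌋₊ + 1 with hK
  have hKle : (K : ℝ) ≤ a * lam * N + 1 := by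
    rw [hK]; push_cast
    have := Nat.floor_le (by positivity : 0 ≤ a * lam * N)
    linarith
  have hKge : a * lam * N < K := by
    rw [hK]; push_cast; exact Nat.lt_floor_add_one _
  have hfl : (m : ℝ) ≤ D1 g 0 := Int.floor_le _
  have hfl2 : D1 g 0 < m + 1 := Int.lt_floor_add_one _
  have hmain := blocks hlam hlam1 (fun n hn => (h n hn).1) K 0 N le_rfl m
    (by
      intro n _ hn2
      have := D1_grow (fun n hn => (h n hn).1) 0 n (Nat.zero_le _) (by omega)
      have h5 : (0 : ℝ) ≤ lam * ((n : ℝ) - ((0 : ℕ) : ℝ)) := by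
        push_cast; rw [sub_zero]; positivity
      linarith)
    (by
      intro n _ hn2
      have := D1_upper (fun n hn => (h n hn).2) 0 n (Nat.zero_le _) (by omega)
      have h5 : a * lam * ((n : ℝ) - ((0 : ℕ) : ℝ)) ≤ a * lam * N := by
        apply mul_le_mul_of_nonneg_left _ (by positivity)
        push_cast
        have : (n : ℝ) ≤ N := by exact_mod_cast hn2.le
        linarith
      linarith)
  refine (norm_add_le _ _).trans ?_
  have h6 : ((K : ℝ) + 1) * (8 / u) ≤ (a * lam * N + 2) * (8 / u) := by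
    apply mul_le_mul_of_nonneg_right _ (by positivity)
    linarith
  have h7 : (a * lam * N + 2) * (8 / u) = 8 * a * (N * u) + 16 * (1 / u) := by
    rw [← huu]; field_simp; ring
  push_cast
  have h8 : (0 : ℝ) ≤ a * u := by positivity
  have h9 : (0 : ℝ) ≤ a * (N * u) := by positivity
  have h10 : (1 / u) ≤ a * (1 / u) := by nlinarith
  nlinarith

/-- version for a real function -/
theorem sds_deriv (f f' f'' : ℝ → ℝ) (x0 : ℝ) (M : ℕ) (lam a : ℝ) (hlam : 0 < lam)
    (hlam1 : lam ≤ 1) (ha : 1 ≤ a)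
    (hf : ∀ x, x0 ≤ x → x ≤ x0 + M → HasDerivAt f (f' x) x)
    (hf' : ∀ x, x0 ≤ x → x ≤ x0 + M → HasDerivAt f' (f'' x) x)
    (h2 : (∀ x, x0 ≤ x → x ≤ x0 + M → lam ≤ f'' x ∧ f'' x ≤ a * lam) ∨
      (∀ x, x0 ≤ x → x ≤ x0 + M → lam ≤ -f'' x ∧ -f'' x ≤ a * lam)) :
    ‖∑ n ∈ range M, ex (f (x0 + n))‖ ≤ 17 * a * (M * Real.sqrt lam + 1 / Real.sqrt lam) := by
  -- second difference = average of the second derivative
  have key : ∀ (F F' F'' : ℝ → ℝ), (∀ x, x0 ≤ x → x ≤ x0 + M → HasDerivAt F (F' x) x) →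
      (∀ x, x0 ≤ x → x ≤ x0 + M → HasDerivAt F' (F'' x) x) →
      (∀ x, x0 ≤ x → x ≤ x0 + M → lam ≤ F'' x ∧ F'' x ≤ a * lam) →
      ∀ n, n + 2 < M → lam ≤ D2 (fun n => F (x0 + n)) n ∧ D2 (fun n => F (x0 + n)) n ≤ a * lam := by
    intro F F' F'' hF hF' hB n hn
    have hnM : ((n : ℝ)) + 2 ≤ M := by exact_mod_cast hn.le
    have hn0 : (0 : ℝ) ≤ n := by positivity
    -- G y = F (y + 1) - F y on [x0+n, x0+n+1]
    obtain ⟨c, hc, hc2⟩ := exists_hasDerivAt_eq_slope (fun y => F (y + 1) - F y)
      (fun y => F' (y + 1) - F' y) (a := x0 + n) (b := x0 + n + 1) (by linarith)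
      (by
        intro y hy
        have h3 : HasDerivAt (fun y => F (y + 1) - F y) (F' (y + 1) * 1 - F' y) y :=
          ((hF (y + 1) (by linarith [hy.1]) (by linarith [hy.2])).comp y
            ((hasDerivAt_id y).add_const 1)).sub
            (hF y (by linarith [hy.1]) (by linarith [hy.2]))
        exact h3.continuousAt.continuousWithinAt)
      (by
        intro y hy
        have h3 : HasDerivAt (fun y => F (y + 1) - F y) (F' (y + 1) * 1 - F' y) y :=
          ((hF (y + 1) (by linarith [hy.1]) (by linarith [hy.2])).comp y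
            ((hasDerivAt_id y).add_const 1)).sub
            (hF y (by linarith [hy.1]) (by linarith [hy.2]))
        simpa using h3)
    obtain ⟨d, hd, hd2⟩ := exists_hasDerivAt_eq_slope F' F'' (a := c) (b := c + 1) (by linarith)
      (fun y hy => (hF' y (by linarith [hy.1, hc.1]) (by linarith [hy.2, hc.2])).continuousAt.continuousWithinAt)
      (fun y hy => hF' y (by linarith [hy.1, hc.1]) (by linarith [hy.2, hc.2]))
    have e1 : D2 (fun n => F (x0 + n)) n = F'' d := by
      unfold D2
      have e2 : (x0 + n + 1) - (x0 + n) = (1 : ℝ) := by ring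
      have e3 : c + 1 - c = (1 : ℝ) := by ring
      rw [e2, div_one] at hc2
      rw [e3, div_one] at hd2
      rw [hd2, hc2]
      push_cast
      have e4 : x0 + ((n : ℝ) + 2) = x0 + n + 1 + 1 := by ring
      have e5 : x0 + ((n : ℝ) + 1) = x0 + n + 1 := by ring
      rw [e4, e5]
    rw [e1]
    exact hB d (by linarith [hd.1, hc.1]) (by linarith [hd.2, hc.2])
  rcases h2 with h2 | h2
  · exact sds _ M lam a hlam hlam1 ha (key f f' f'' hf hf' h2)
  · have h3 := sds _ M lam a hlam hlam1 ha (key (fun x => -f x) (fun x => -f' x) (fun x => -f'' x)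
      (fun x h4 h5 => (hf x h4 h5).neg) (fun x h4 h5 => (hf' x h4 h5).neg) h2)
    have e1 : ∑ n ∈ range M, ex (-f (x0 + n)) =
        (starRingEnd ℂ) (∑ n ∈ range M, ex (f (x0 + n))) := by
      rw [map_sum]
      exact sum_congr rfl fun n _ => ex_neg _
    rw [e1, Complex.norm_conj] at h3
    exact h3

end Pool.M6T
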